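import Pool.Agent.HAS53.Count

/-!
# Theorem Hasse for set valued symmetric linked maps, and Corollary (a)
-/

set_option autoImplicit false
set_option linter.unusedSectionVars false

namespace Pool.Agent.HAS53

open Pool.Agent.ZPC2 Pool.Agent.LF53
open Pool.Agent.HAS82 (ind ind_and natCard_eq card_mul card_mono sg sg_add sg_zero T T_pos T_zero
  T_nonneg conv_ineq)
open scoped Classical
open Finset

variable {V Q : Type} [AddCommGroup V] [Module (ZMod 2) V] [Finite V] {D : BD V V Q}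

instance finQV (v : V) : Finite (QV D v) := Finite.of_surjective (mk D v) (mk_surj v)

instance finLI : Finite (LI D) := by
  have h : Finite (∀ v : V, QV D v) := Pi.finite
  exact Finite.of_injective (fun φ : LI D => φ.1) Subtype.val_injective

/-- evaluation at `v` -/
def ev (v : V) : LI D →ₗ[ZMod 2] QV D v := (LinearMap.proj v).comp (LI D).subtype

theorem ev_apply (v : V) (φ : LI D) : ev v φ = φ.1 v := rfl

/-- the size of the kernel -/
noncomputable def kap (φ : LI D) : ℤ := (Nat.card (KR φ) : ℤ)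

theorem kap_sum [Fintype V] (φ : LI D) : kap φ =
    ∑ v : V, (ind (φ ∈ LinearMap.ker (ev (D := D) v)) : ℤ) := by
  unfold kap
  rw [natCard_eq, Nat.cast_sum]
  refine Finset.sum_congr rfl fun v _ => ?_
  congr 2

theorem kap_hat [Fintype V] [Fintype (LI D)] (Λ : Module.Dual (ZMod 2) (LI D)) :
    ∑ φ : LI D, sg (Λ φ) * kap φ = ∑ v : V, T Λ (LinearMap.ker (ev (D := D) v)) := by
  simp only [kap_sum, Finset.mul_sum]
  rw [Finset.sum_comm]
  rfl

/-- the classes at `v` whose value is a value of `χ` -/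
def CM (hs : Sy D) (hX : XL D) (χ : LI D) (v : V) : Submodule (ZMod 2) (QV D v) where
  carrier := {a | ∃ u, pv χ u = vl D v a}
  add_mem' := by
    rintro a b ⟨u, h⟩ ⟨u', h'⟩
    obtain ⟨t, rfl⟩ := mk_surj v a
    obtain ⟨t', rfl⟩ := mk_surj v b
    rw [vl_mk] at h h'
    obtain ⟨s, b1, b2, b3⟩ := plane χ u u'
    refine ⟨u + u', ?_⟩
    rw [← mk_add, vl_mk, ← b3, hs v]
    exact (val_add hs hX (by rw [hs, b1, h]) (by rw [hs, b2, h'])).symm
  zero_mem' := ⟨0, by rw [vl_zero]; exact mem_KR.1 (KR χ).zero_mem⟩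
  smul_mem' := by
    rintro c a ⟨u, h⟩
    rcases smul_cases c a with e | e
    · rw [e]
      exact ⟨0, by rw [vl_zero]; exact mem_KR.1 (KR χ).zero_mem⟩
    · rw [e]
      exact ⟨u, h⟩

theorem kap_pd (hs : Sy D) (hX : XL D) [Fintype (LI D)] (χ : LI D)
    (Λ : Module.Dual (ZMod 2) (LI D)) :
    0 ≤ ∑ ψ : LI D, sg (Λ ψ) * (kap ψ * kap (ψ + χ)) := by
  have := Fintype.ofFinite V
  have h1 : ∀ ψ : LI D, kap ψ * kap (ψ + χ) = ∑ v : V, ∑ w : V,
      (ind (χ.1 w = 0) : ℤ) * (ind (ψ ∈ (CM hs hX χ v).comap (ev v) ⊓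
        LinearMap.ker (ev (D := D) w)) : ℤ) := by
    intro ψ
    have h2 := eq_of_lk hs hX (lk_all hs hX ψ χ)
    have h3 : kap ψ * kap (ψ + χ) = ((lhs ψ χ : ℕ) : ℤ) := by
      unfold kap lhs
      push_cast
      rfl
    rw [h3, h2, rhs_sum]
    push_cast
    refine Finset.sum_congr rfl fun v _ => Finset.sum_congr rfl fun w _ => ?_
    rw [← Nat.cast_mul, ← ind_and]
    congr 2
    apply propext
    constructor
    · rintro ⟨h4, h5, h6⟩
      exact ⟨h6, h4, h5⟩
    · rintro ⟨h6, h4, h5⟩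
      exact ⟨h4, h5, h6⟩
  have h2 : ∑ ψ : LI D, sg (Λ ψ) * (kap ψ * kap (ψ + χ)) = ∑ v : V, ∑ w : V,
      (ind (χ.1 w = 0) : ℤ) * T Λ ((CM hs hX χ v).comap (ev v) ⊓
        LinearMap.ker (ev (D := D) w)) := by
    simp only [h1, Finset.mul_sum]
    rw [Finset.sum_comm]
    refine Finset.sum_congr rfl fun v _ => ?_
    rw [Finset.sum_comm]
    refine Finset.sum_congr rfl fun w _ => ?_
    unfold T
    rw [Finset.mul_sum]
    refine Finset.sum_congr rfl fun ψ _ => ?_
    ring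
  rw [h2]
  exact Finset.sum_nonneg fun v _ => Finset.sum_nonneg fun w _ =>
    mul_nonneg (Int.natCast_nonneg _) (T_nonneg _ _)

/-- (3) the functionals killing the kernel of some evaluation form a group -/
theorem supp_add (hs : Sy D) (hX : XL D) {a b : Module.Dual (ZMod 2) (LI D)}
    (ha : ∃ v : V, ∀ ψ ∈ LinearMap.ker (ev (D := D) v), a ψ = 0)
    (hb : ∃ v : V, ∀ ψ ∈ LinearMap.ker (ev (D := D) v), b ψ = 0) :
    ∃ v : V, ∀ ψ ∈ LinearMap.ker (ev (D := D) v), (a + b) ψ = 0 := by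
  have := Fintype.ofFinite V
  have := Fintype.ofFinite (LI D)
  have hpos : ∀ c : Module.Dual (ZMod 2) (LI D),
      (∃ v : V, ∀ ψ ∈ LinearMap.ker (ev (D := D) v), c ψ = 0) →
      0 < ∑ φ : LI D, sg (c φ) * kap φ := by
    rintro c ⟨v, hv⟩
    rw [kap_hat]
    exact Finset.sum_pos' (fun w _ => T_nonneg _ _) ⟨v, Finset.mem_univ _, T_pos hv⟩
  by_contra hcon
  have h1 : ∑ φ : LI D, sg ((a + b) φ) * kap φ = 0 := by
    rw [kap_hat]
    refine Finset.sum_eq_zero fun v _ => T_zero fun h => hcon ⟨v, h⟩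
  have h2 := conv_ineq kap (kap_pd hs hX) a b
  rw [h1, zero_mul] at h2
  have h3 := mul_pos (hpos a ha) (hpos b hb)
  linarith

/-- the inner maps -/
def adL : V →ₗ[ZMod 2] LI D where
  toFun := ad D
  map_add' _ _ := Subtype.ext (funext fun _ => rfl)
  map_smul' _ _ := Subtype.ext (funext fun _ => rfl)

/-- Theorem Hasse for elements of `LI` -/
theorem hasse_LI (hs : Sy D) (hX : XL D) (φ : LI D) : ∃ t, ∀ v, pv φ v = D.q v t := by
  let S : Submodule (ZMod 2) (Module.Dual (ZMod 2) (LI D)) :=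
    { carrier := {a | ∃ v : V, ∀ ψ ∈ LinearMap.ker (ev (D := D) v), a ψ = 0}
      add_mem' := fun ha hb => supp_add hs hX ha hb
      zero_mem' := ⟨0, fun ψ _ => rfl⟩
      smul_mem' := by
        rintro c a ⟨v, hv⟩
        exact ⟨v, fun ψ h => by rw [LinearMap.smul_apply, hv ψ h, smul_zero]⟩ }
  have h1 : S.dualCoannihilator = ⊥ := by
    rw [eq_bot_iff]
    intro ψ hψ
    rw [Submodule.mem_bot]
    rw [Submodule.mem_dualCoannihilator] at hψ
    apply Subtype.ext
    funext v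
    show ψ.1 v = 0
    rw [← Module.forall_dual_apply_eq_zero_iff (ZMod 2)]
    intro g
    refine hψ (g.comp (ev v)) ⟨v, fun ρ hρ => ?_⟩
    rw [LinearMap.comp_apply, LinearMap.mem_ker.1 hρ, map_zero]
  have h2 : S = ⊤ := by
    rw [← Subspace.dualCoannihilator_dualAnnihilator_eq (W := S), h1,
      Submodule.dualAnnihilator_bot]
  by_contra hcon
  have h3 : φ ∉ LinearMap.range (adL (D := D)) := by
    rintro ⟨t, ht⟩
    apply hcon
    refine ⟨t, fun v => ?_⟩
    rw [← ht]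
    exact pv_ad t v
  obtain ⟨Λ, h4, h5⟩ := Submodule.exists_le_ker_of_notMem h3
  have h6 : Λ ∈ S := by
    rw [h2]
    exact Submodule.mem_top
  obtain ⟨v, hv⟩ := h6
  obtain ⟨t0, ht0, -, -⟩ := plane φ v v
  have h7 : Λ (φ + ad D t0) = 0 := by
    apply hv
    rw [LinearMap.mem_ker, ev_apply, add_z, pv_ad, ht0]
  have h8 : Λ (ad D t0) = 0 := h5 ⟨t0, rfl⟩
  rw [map_add, h8, add_zero] at h7
  exact h4 h7

/-- **Theorem Hasse** (note 3199), set valued: a map which is inner on every plane is inner -/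
theorem hasse (hs : Sy D) (hX : XL D) (φ : V → Q)
    (h : ∀ v w, ∃ t, D.q v t = φ v ∧ D.q w t = φ w ∧ D.q (v + w) t = φ (v + w)) :
    ∃ t, ∀ v, φ v = D.q v t := by
  have h1 : ∀ v, ∃ a : QV D v, vl D v a = φ v := by
    intro v
    obtain ⟨t, ht, -, -⟩ := h v v
    exact ⟨mk D v t, by rw [vl_mk, ht]⟩
  choose g hg using h1
  have h2 : ∀ v t, D.q v t = φ v → mk D v t = g v := by
    intro v t ht
    rw [← vl_inj, vl_mk, hg, ht]
  let ψ : LI D := ⟨g, fun v w => by
    obtain ⟨t, a1, a2, a3⟩ := h v w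
    exact ⟨t, h2 _ _ a1, h2 _ _ a2, h2 _ _ a3⟩⟩
  obtain ⟨t, ht⟩ := hasse_LI hs hX ψ
  exact ⟨t, fun v => by rw [← ht v, ← hg v]; rfl⟩

/-- **Corollary (a)** of note 3199: if `e` is a value of all elements outside a subspace `H` of
index two, then some `t` has `q (v, t) = e` outside `H` and `q (v, t) = 0` on `H` -/
theorem hyper (hs : Sy D) (hX : XL D) (H : Submodule (ZMod 2) V)
    (hH : ∀ v w, v ∉ H → w ∉ H → v + w ∈ H) (e : Q) (he : ∀ v, v ∉ H → ∃ t, D.q v t = e) :
    ∃ t, (∀ v, v ∉ H → D.q v t = e) ∧ ∀ v ∈ H, D.q v t = D.z := by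
  obtain ⟨t, ht⟩ := hasse hs hX (fun v => if v ∈ H then D.z else e) (by
    intro v w
    by_cases hv : v ∈ H <;> by_cases hw : w ∈ H
    · refine ⟨0, ?_, ?_, ?_⟩
      · rw [D.q0]; simp [hv]
      · rw [D.q0]; simp [hw]
      · rw [D.q0]; simp [H.add_mem hv hw]
    · have hvw : v + w ∉ H := fun h => hw ((H.add_mem_iff_right hv).1 h)
      obtain ⟨t, h1, h2⟩ := hX e w (v + w) (he w hw) (he _ hvw)
      refine ⟨t, ?_, ?_, ?_⟩
      · simp only [hv, if_true]
        rw [add_comm] at h2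
        exact BD.ld h2 h1
      · simp [hw, h1]
      · simp [hvw, h2]
    · have hvw : v + w ∉ H := fun h => hv ((H.add_mem_iff_left hw).1 h)
      obtain ⟨t, h1, h2⟩ := hX e v (v + w) (he v hv) (he _ hvw)
      refine ⟨t, ?_, ?_, ?_⟩
      · simp [hv, h1]
      · simp only [hw, if_true]
        exact BD.ld h2 h1
      · simp [hvw, h2]
    · obtain ⟨t, h1, h2⟩ := hX e v w (he v hv) (he w hw)
      refine ⟨t, ?_, ?_, ?_⟩
      · simp [hv, h1]
      · simp [hw, h2]
      · simp only [hH v w hv hw, if_true]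
        exact BD.lc h1 h2)
  refine ⟨t, fun v hv => ?_, fun v hv => ?_⟩
  · rw [← ht v]
    simp [hv]
  · rw [← ht v]
    simp [hv]

end Pool.Agent.HAS53
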