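import Pool.Agent.LF53.Flag
import Pool.Agent.HAS82.Main

/-!
# Theorem Hasse (note 3199 of helper42) for set valued symmetric linked maps

`D` is a symmetric set valued map (`ZPC2/Defs`), linked.  A map `φ` with values in `Q` which agrees
on every plane with some `q (·, t)` is `q (·, t)` for one `t`.
-/

set_option autoImplicit false
set_option linter.unusedSectionVars false

namespace Pool.Agent.HAS53

open Pool.Agent.ZPC2 Pool.Agent.LF53
open Pool.Agent.HAS82 (ind ind_and natCard_eq card_mul card_mono sg sg_add sg_zero T T_pos T_zero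
  T_nonneg conv_ineq)
open scoped Classical
open Finset

variable {V Q : Type} [AddCommGroup V] [Module (ZMod 2) V] [Finite V] (D : BD V V Q)

/-- the values at `v` as a group -/
abbrev QV (v : V) : Type := V ⧸ Wa D v

/-- the class of `t` at `v` -/
def mk (v t : V) : QV D v := Submodule.Quotient.mk t

/-- the value of a class -/
noncomputable def vl (v : V) (a : QV D v) : Q := D.q v (Quotient.out a)

variable {D}

theorem mk_add (v t s : V) : mk D v (t + s) = mk D v t + mk D v s := rfl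

theorem mk_eq {v t s : V} : mk D v t = mk D v s ↔ D.q v t = D.q v s := by
  rw [D.qr]
  unfold mk
  rw [Submodule.Quotient.eq, ZModModule.sub_eq_add]
  rfl

theorem mk_zero {v t : V} : mk D v t = 0 ↔ D.q v t = D.z := by
  unfold mk
  rw [Submodule.Quotient.mk_eq_zero]
  rfl

theorem mk_surj (v : V) (a : QV D v) : ∃ t, mk D v t = a := Submodule.Quotient.mk_surjective _ a

theorem vl_mk (v t : V) : vl D v (mk D v t) = D.q v t := by
  unfold vl
  rw [← mk_eq]
  exact Quotient.out_eq _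

theorem vl_inj {v : V} {a b : QV D v} : vl D v a = vl D v b ↔ a = b := by
  obtain ⟨t, rfl⟩ := mk_surj v a
  obtain ⟨s, rfl⟩ := mk_surj v b
  rw [vl_mk, vl_mk, mk_eq]

theorem vl_zero (v : V) : vl D v 0 = D.z := by
  have h : mk D v 0 = 0 := rfl
  rw [← h, vl_mk, D.q0]

theorem vl_eq_z {v : V} {a : QV D v} : vl D v a = D.z ↔ a = 0 := by
  rw [← vl_zero v, vl_inj]

variable (D)

/-- the maps which are inner on every plane -/
def LI : Submodule (ZMod 2) (∀ v, QV D v) where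
  carrier := {φ | ∀ v w, ∃ t, mk D v t = φ v ∧ mk D w t = φ w ∧ mk D (v + w) t = φ (v + w)}
  add_mem' := by
    intro φ ψ h1 h2 v w
    obtain ⟨t, a1, a2, a3⟩ := h1 v w
    obtain ⟨s, b1, b2, b3⟩ := h2 v w
    exact ⟨t + s, by rw [mk_add, a1, b1]; rfl, by rw [mk_add, a2, b2]; rfl,
      by rw [mk_add, a3, b3]; rfl⟩
  zero_mem' := fun v w => ⟨0, rfl, rfl, rfl⟩
  smul_mem' := by
    intro c φ h v w
    rcases smul_cases c φ with e | e
    · rw [e]
      exact ⟨0, rfl, rfl, rfl⟩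
    · rw [e]
      exact h v w

/-- the inner map of `t` -/
def ad (t : V) : LI D := ⟨fun v => mk D v t, fun _ _ => ⟨t, rfl, rfl, rfl⟩⟩

variable {D}

/-- the value of a map -/
noncomputable def pv (φ : LI D) (v : V) : Q := vl D v (φ.1 v)

theorem pv_ad (t v : V) : pv (ad D t) v = D.q v t := vl_mk v t

theorem plane (φ : LI D) (v w : V) :
    ∃ t, D.q v t = pv φ v ∧ D.q w t = pv φ w ∧ D.q (v + w) t = pv φ (v + w) := by
  obtain ⟨t, h1, h2, h3⟩ := φ.2 v w
  exact ⟨t, by rw [pv, ← h1, vl_mk], by rw [pv, ← h2, vl_mk], by rw [pv, ← h3, vl_mk]⟩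

theorem pv_z {φ : LI D} {v : V} : φ.1 v = 0 ↔ pv φ v = D.z := vl_eq_z.symm

theorem pv_eq {φ ψ : LI D} {v : V} : φ.1 v = ψ.1 v ↔ pv φ v = pv ψ v := vl_inj.symm

theorem add_z {φ ψ : LI D} {v : V} : (φ + ψ).1 v = 0 ↔ pv φ v = pv ψ v := by
  rw [← pv_eq]
  have h : (φ + ψ).1 v = φ.1 v + ψ.1 v := rfl
  rw [h]
  constructor
  · exact eq_of_add
  · intro h
    rw [h, ZModModule.add_self]

theorem add_ad {φ : LI D} {v t0 : V} (h : D.q v t0 = pv φ v) (t : V) :
    (φ + ad D t).1 v = (ad D (t + t0)).1 v := by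
  have h1 : mk D v t0 = φ.1 v := by
    rw [← vl_inj, vl_mk]
    exact h
  show φ.1 v + mk D v t = mk D v (t + t0)
  rw [mk_add, h1, add_comm]

/-- the kernel -/
def KR (φ : LI D) : Submodule (ZMod 2) V where
  carrier := {v | φ.1 v = 0}
  add_mem' := by
    intro v w h1 h2
    obtain ⟨t, a1, a2, a3⟩ := plane φ v w
    show φ.1 (v + w) = 0
    rw [pv_z, ← a3]
    exact BD.l0 (a1.trans (pv_z.1 h1)) (a2.trans (pv_z.1 h2))
  zero_mem' := by
    obtain ⟨t, a1, -, -⟩ := plane φ 0 0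
    show φ.1 0 = 0
    rw [pv_z, ← a1, D.zq]
  smul_mem' := by
    intro c v h
    rcases smul_cases c v with e | e
    · rw [e]
      obtain ⟨t, a1, -, -⟩ := plane φ 0 0
      show φ.1 0 = 0
      rw [pv_z, ← a1, D.zq]
    · rw [e]
      exact h

theorem mem_KR {φ : LI D} {v : V} : v ∈ KR φ ↔ pv φ v = D.z := pv_z

theorem mem_KR_add {φ ψ : LI D} {v : V} : v ∈ KR (φ + ψ) ↔ pv φ v = pv ψ v := add_z

/-- symmetric -/
def Sy (D : BD V V Q) : Prop := ∀ x y, D.q x y = D.q y x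

/-- linkage of the second arguments -/
theorem yl (hs : Sy D) (hX : XL D) {t s v w : V} (h : D.q v t = D.q w s) :
    ∃ x, D.q x t = D.q v t ∧ D.q x s = D.q v t := by
  obtain ⟨x, h1, h2⟩ := hX (D.q v t) t s ⟨v, hs t v⟩ ⟨w, by rw [h]; exact hs s w⟩
  exact ⟨x, by rw [hs]; exact h1, by rw [hs]; exact h2⟩

/-- values of two inner maps add up -/
theorem val_add (hs : Sy D) (hX : XL D) {t s v w v' w' : V} (h : D.q v t = D.q w s)
    (h' : D.q v' t = D.q w' s) : D.q (v + v') t = D.q (w + w') s := by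
  obtain ⟨x, h1, h2⟩ := yl hs hX h
  obtain ⟨x', h3, h4⟩ := yl hs hX h'
  have e1 : D.q (v + v') t = D.q (x + x') t := by
    rw [D.ql]
    have : v + v' + (x + x') = (v + x) + (v' + x') := by abel
    rw [this]
    exact BD.l0 (BD.lc rfl h1) (BD.lc rfl h3)
  have e2 : D.q (w + w') s = D.q (x + x') s := by
    rw [D.ql]
    have : w + w' + (x + x') = (w + x) + (w' + x') := by abel
    rw [this]
    exact BD.l0 (BD.lc rfl (h2.trans h)) (BD.lc rfl (h4.trans h'))
  have e3 : D.q (x + x') t = D.q (x + x') s := by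
    rw [D.qr]
    exact BD.l0 (BD.rc h1 h2) (BD.rc h3 h4)
  rw [e1, e2, e3]

/-- the elements where `ψ` takes a value of `χ` -/
def EE (hs : Sy D) (hX : XL D) (ψ χ : LI D) : Submodule (ZMod 2) V where
  carrier := {v | ∃ w, pv χ w = pv ψ v}
  add_mem' := by
    rintro v v' ⟨w, h⟩ ⟨w', h'⟩
    obtain ⟨t, a1, a2, a3⟩ := plane ψ v v'
    obtain ⟨s, b1, b2, b3⟩ := plane χ w w'
    refine ⟨w + w', ?_⟩
    rw [← a3, ← b3]
    exact (val_add hs hX (by rw [a1, b1, h]) (by rw [a2, b2, h'])).symm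
  zero_mem' := by
    refine ⟨0, ?_⟩
    rw [mem_KR.1 (KR χ).zero_mem, mem_KR.1 (KR ψ).zero_mem]
  smul_mem' := by
    rintro c v ⟨w, h⟩
    rcases smul_cases c v with e | e
    · rw [e]
      refine ⟨0, ?_⟩
      rw [mem_KR.1 (KR χ).zero_mem, mem_KR.1 (KR ψ).zero_mem]
    · rw [e]
      exact ⟨w, h⟩

theorem mem_EE {hs : Sy D} {hX : XL D} {ψ χ : LI D} {v : V} :
    v ∈ EE hs hX ψ χ ↔ ∃ w, pv χ w = pv ψ v := Iff.rfl

end Pool.Agent.HAS53
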