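import Pool.Agent.HAS53.Main
import Pool.Agent.ETC.Witt3

/-!
# Linear maps into `Q_x` which are pointwise inner are inner (set valued)
-/

set_option autoImplicit false
set_option linter.unusedSectionVars false
set_option linter.unusedVariables false

namespace Pool.Agent.HAS53

open Pool.Agent.ZPC2 Pool.Agent.LF53
open Pool.Agent.Helper58.PLine (QData)

variable {V Q : Type} [AddCommGroup V] [Module (ZMod 2) V] {S : QData V Q}

/-- the bilinear data of a `QData` -/
def ofQD (S : QData V Q) : BD V V Q where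
  q := S.q
  z := S.z
  qr v w w1 := S.eq_iff
  ql v v1 w := S.eq_iff'

theorem sy_QD (S : QData V Q) : Sy (ofQD S) := fun x y => S.symm x y

theorem xl_QD (S : QData V Q) : XL (ofQD S) := by
  rintro c x x' ⟨p, h1⟩ ⟨p', h2⟩
  obtain ⟨y, h3, h4⟩ := S.link x p x' p' (h1.trans h2.symm)
  exact ⟨y, h3.symm.trans h1, h4.symm.trans h2⟩

/-- **Theorem Hasse** for `QData` -/
theorem hasse_QD [Finite V] (φ : V → Q)
    (h : ∀ v w, ∃ t, S.q v t = φ v ∧ S.q w t = φ w ∧ S.q (v + w) t = φ (v + w)) :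
    ∃ t, ∀ v, S.q v t = φ v := by
  obtain ⟨t, ht⟩ := hasse (sy_QD S) (xl_QD S) φ h
  exact ⟨t, fun v => (ht v).symm⟩

/-- a pointwise inner map `v ↦ q (x, p v)`, with `p` additive modulo `V_x`, is inner on planes -/
theorem plane_of_point {x : V} (p : V → V) (hp : ∀ v w, S.q x (p (v + w)) = S.q x (p v + p w))
    (h : ∀ v, ∃ t, S.q v t = S.q x (p v)) (v w : V) :
    ∃ t, S.q v t = S.q x (p v) ∧ S.q w t = S.q x (p w) ∧
      S.q (v + w) t = S.q x (p (v + w)) := by
  obtain ⟨s, hs⟩ := h v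
  obtain ⟨t, ht⟩ := h w
  obtain ⟨r, hr⟩ := h (v + w)
  obtain ⟨y, h1, h2⟩ := ETC.strong_link hs ht ⟨r, hr.trans (hp v w)⟩
  have h3 : S.q v y = S.q x (p v) := h1.trans hs
  have h4 : S.q w y = S.q x (p w) := h2.trans ht
  refine ⟨y, h3, h4, ?_⟩
  -- the sum of two symbols with a common slot is well defined
  have h5 : S.q y v = S.q x (p v) := by rw [S.symm, h3]
  have h6 : S.q y w = S.q x (p w) := by rw [S.symm, h4]
  obtain ⟨a, k1, k2⟩ := S.link _ _ _ _ h5
  obtain ⟨b, k3, k4⟩ := S.link _ _ _ _ h6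
  have m1 : a ∈ S.ann (y + x) := S.eq_iff'.1 (k1.symm.trans (h5.trans k2))
  have m2 : b ∈ S.ann (y + x) := S.eq_iff'.1 (k3.symm.trans (h6.trans k4))
  have m3 : a + b ∈ S.ann (y + x) := add_mem m1 m2
  have m4 : S.q y (a + b) = S.q x (a + b) := S.eq_iff'.2 m3
  have m5 : S.q y (v + w) = S.q y (a + b) := by
    rw [S.eq_iff]
    have e1 : v + a ∈ S.ann y := S.eq_iff.1 k1
    have e2 : w + b ∈ S.ann y := S.eq_iff.1 k3
    have e3 := add_mem e1 e2
    rw [show v + a + (w + b) = v + w + (a + b) by abel] at e3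
    exact e3
  have m6 : S.q x (p v + p w) = S.q x (a + b) := by
    rw [S.eq_iff]
    have e1 : p v + a ∈ S.ann x := S.eq_iff.1 k2
    have e2 : p w + b ∈ S.ann x := S.eq_iff.1 k4
    have e3 := add_mem e1 e2
    rw [show p v + a + (p w + b) = p v + p w + (a + b) by abel] at e3
    exact e3
  rw [S.symm (v + w) y, m5, m4, ← m6, hp]

/-- **linear maps into `Q_x` which are pointwise inner are inner** -/
theorem hasse_comp [Finite V] {x : V} (p : V → V)
    (hp : ∀ v w, S.q x (p (v + w)) = S.q x (p v + p w))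
    (h : ∀ v, ∃ t, S.q v t = S.q x (p v)) : ∃ t, ∀ v, S.q v t = S.q x (p v) :=
  hasse_QD _ (plane_of_point p hp h)

end Pool.Agent.HAS53
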