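import Pool.Agent.HAS53.Basic

/-!
# Theorem Hasse, set valued: all pairs of maps which are inner on planes are linked
-/

set_option autoImplicit false
set_option linter.unusedSectionVars false

namespace Pool.Agent.HAS53

open Pool.Agent.ZPC2 Pool.Agent.LF53
open Pool.Agent.HAS82 (ind ind_and natCard_eq card_mul card_mono sg sg_add sg_zero T T_pos T_zero
  T_nonneg conv_ineq)
open scoped Classical
open Finset

variable {V Q : Type} [AddCommGroup V] [Module (ZMod 2) V] [Finite V] {D : BD V V Q}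

/-- linked maps -/
def Lk (ψ χ : LI D) : Prop := ∀ v w, pv ψ v = pv χ w → ∃ z, pv ψ z = pv ψ v ∧ pv χ z = pv ψ v

theorem Lk.symm {ψ χ : LI D} (h : Lk ψ χ) : Lk χ ψ := by
  intro v w hvw
  obtain ⟨z, h1, h2⟩ := h w v hvw.symm
  exact ⟨z, by rw [h2, hvw], by rw [h1, hvw]⟩

/-- the left hand side -/
noncomputable def lhs (ψ χ : LI D) : ℕ := Nat.card (KR ψ) * Nat.card (KR (ψ + χ))

/-- the right hand side -/
noncomputable def rhs (hs : Sy D) (hX : XL D) (ψ χ : LI D) : ℕ :=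
  Nat.card (EE hs hX ψ χ) * Nat.card (KR ψ ⊓ KR χ : Submodule (ZMod 2) V)

theorem inf_eq (ψ χ : LI D) : KR ψ ⊓ KR (ψ + χ) = KR ψ ⊓ KR χ := by
  ext v
  rw [Submodule.mem_inf, Submodule.mem_inf, mem_KR_add, mem_KR, mem_KR]
  constructor
  · rintro ⟨h1, h2⟩
    exact ⟨h1, by rw [← h2, h1]⟩
  · rintro ⟨h1, h2⟩
    exact ⟨h1, by rw [h1, h2]⟩

variable (hs : Sy D) (hX : XL D)

theorem sup_le' (ψ χ : LI D) : KR ψ ⊔ KR (ψ + χ) ≤ EE hs hX ψ χ := by
  refine sup_le ?_ ?_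
  · intro v hv
    rw [mem_EE, mem_KR.1 hv]
    exact ⟨0, mem_KR.1 (KR χ).zero_mem⟩
  · intro v hv
    rw [mem_KR_add] at hv
    exact ⟨v, hv.symm⟩

theorem lhs_eq (ψ χ : LI D) : lhs ψ χ = Nat.card (KR ψ ⊔ KR (ψ + χ) : Submodule (ZMod 2) V) *
    Nat.card (KR ψ ⊓ KR χ : Submodule (ZMod 2) V) := by
  rw [lhs, card_mul, inf_eq]

theorem lhs_le_rhs (ψ χ : LI D) : lhs ψ χ ≤ rhs hs hX ψ χ := by
  rw [lhs_eq, rhs]
  exact Nat.mul_le_mul_right _ (card_mono (sup_le' hs hX ψ χ))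

/-- the value at a sum with an element of the kernel -/
theorem pv_add_KR {ψ : LI D} {a b : V} (h : a ∈ KR ψ) : pv ψ (a + b) = pv ψ b := by
  obtain ⟨t, h1, h2, h3⟩ := plane ψ a b
  rw [← h3, ← h2]
  exact BD.l0' (h1.trans (mem_KR.1 h)) rfl

theorem add_mem_KR {ψ : LI D} {a b : V} (h : pv ψ a = pv ψ b) : a + b ∈ KR ψ := by
  obtain ⟨t, h1, h2, h3⟩ := plane ψ a b
  rw [mem_KR, ← h3]
  exact BD.lc rfl (by rw [h1, h2, h])

include hs hX in
theorem lk_of_eq {ψ χ : LI D} (h : lhs ψ χ = rhs hs hX ψ χ) : Lk ψ χ := by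
  rw [lhs_eq, rhs] at h
  have hpos : 0 < Nat.card (KR ψ ⊓ KR χ : Submodule (ZMod 2) V) := Nat.card_pos
  have h1 := Nat.eq_of_mul_eq_mul_right hpos h
  have h2 : KR ψ ⊔ KR (ψ + χ) = EE hs hX ψ χ := by
    apply SetLike.coe_injective
    exact Set.eq_of_subset_of_ncard_le (sup_le' hs hX ψ χ) h1.ge (Set.toFinite _)
  intro v w hvw
  have h3 : v ∈ EE hs hX ψ χ := ⟨w, hvw.symm⟩
  rw [← h2] at h3
  obtain ⟨a, ha, b, hb, hab⟩ := Submodule.mem_sup.1 h3
  rw [mem_KR_add] at hb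
  have h4 : pv ψ v = pv ψ b := by rw [← hab, pv_add_KR ha]
  exact ⟨b, h4.symm, by rw [← hb, h4]⟩

theorem eq_of_lk {ψ χ : LI D} (h : Lk ψ χ) : lhs ψ χ = rhs hs hX ψ χ := by
  rw [lhs_eq, rhs]
  congr 2
  have h2 : KR ψ ⊔ KR (ψ + χ) = EE hs hX ψ χ := by
    apply le_antisymm (sup_le' hs hX ψ χ)
    rintro v ⟨w, hw⟩
    obtain ⟨z, h1, h3⟩ := h v w hw.symm
    have : v = (v + z) + z := by rw [aa]
    rw [this]
    refine Submodule.add_mem_sup (add_mem_KR h1.symm) ?_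
    rw [mem_KR_add, h1, h3]
  rw [h2]

theorem lhs_sum [Fintype V] (ψ χ : LI D) :
    lhs ψ χ = ∑ v : V, ∑ w : V, ind (ψ.1 v = 0 ∧ ψ.1 w = χ.1 w) := by
  rw [lhs, natCard_eq, natCard_eq, Finset.sum_mul_sum]
  refine Finset.sum_congr rfl fun v _ => Finset.sum_congr rfl fun w _ => ?_
  rw [← ind_and]
  congr 1
  rw [mem_KR_add, pv_eq]
  rfl

theorem rhs_sum [Fintype V] (ψ χ : LI D) :
    rhs hs hX ψ χ = ∑ v : V, ∑ w : V,
      ind ((∃ u, pv χ u = vl D v (ψ.1 v)) ∧ (ψ.1 w = 0 ∧ χ.1 w = 0)) := by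
  rw [rhs, natCard_eq, natCard_eq, Finset.sum_mul_sum]
  refine Finset.sum_congr rfl fun v _ => Finset.sum_congr rfl fun w _ => ?_
  rw [← ind_and]
  rfl

/-- shifting a coset sum -/
theorem shift [Fintype V] (φ : LI D) (P : ∀ v w : V, QV D v → QV D w → Prop) :
    ∑ t : V, ∑ v : V, ∑ w : V, ind (P v w ((φ + ad D t).1 v) ((φ + ad D t).1 w)) =
    ∑ t : V, ∑ v : V, ∑ w : V, ind (P v w ((ad D t).1 v) ((ad D t).1 w)) := by
  rw [Finset.sum_comm]
  conv_rhs => rw [Finset.sum_comm]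
  refine Finset.sum_congr rfl fun v _ => ?_
  rw [Finset.sum_comm]
  conv_rhs => rw [Finset.sum_comm]
  refine Finset.sum_congr rfl fun w _ => ?_
  obtain ⟨t0, h1, h2, -⟩ := plane φ v w
  refine Fintype.sum_equiv (Equiv.addRight t0) _ _ fun t => ?_
  show ind _ = ind (P v w ((ad D (t + t0)).1 v) ((ad D (t + t0)).1 w))
  rw [add_ad h1, add_ad h2]

theorem lhs_shift [Fintype V] (φ χ : LI D) :
    ∑ t : V, lhs (φ + ad D t) χ = ∑ t : V, lhs (ad D t) χ := by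
  simp only [lhs_sum]
  exact shift φ fun v w b c => b = 0 ∧ c = χ.1 w

theorem rhs_shift [Fintype V] (φ χ : LI D) :
    ∑ t : V, rhs hs hX (φ + ad D t) χ = ∑ t : V, rhs hs hX (ad D t) χ := by
  simp only [rhs_sum]
  exact shift φ fun v w b c => (∃ u, pv χ u = vl D v b) ∧ (c = 0 ∧ χ.1 w = 0)

theorem ad_zero : ad D 0 = 0 := Subtype.ext (funext fun _ => rfl)

include hs hX in
/-- (1), (2): if `χ` is linked with every inner map then with every map inner on planes -/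
theorem lk_step {χ : LI D} (h : ∀ t, Lk (ad D t) χ) (φ : LI D) : Lk φ χ := by
  have := Fintype.ofFinite V
  have h1 : ∑ t : V, lhs (φ + ad D t) χ = ∑ t : V, rhs hs hX (φ + ad D t) χ := by
    rw [lhs_shift φ, rhs_shift hs hX φ]
    exact Finset.sum_congr rfl fun t _ => eq_of_lk hs hX (h t)
  have h2 := (Finset.sum_eq_sum_iff_of_le fun t _ => lhs_le_rhs hs hX (φ + ad D t) χ).1 h1 0
    (Finset.mem_univ _)
  rw [ad_zero, add_zero] at h2
  exact lk_of_eq hs hX h2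

include hs hX in
theorem lk_inner (s t : V) : Lk (ad D s) (ad D t) := by
  intro v w h
  rw [pv_ad, pv_ad] at h
  obtain ⟨x, h1, h2⟩ := yl hs hX h
  exact ⟨x, by rw [pv_ad, pv_ad, h1], by rw [pv_ad, pv_ad, h2]⟩

include hs hX in
/-- all pairs of maps which are inner on planes are linked -/
theorem lk_all (φ χ : LI D) : Lk φ χ :=
  lk_step hs hX (fun _ => (lk_step hs hX (fun s => lk_inner hs hX s _) χ).symm) φ

end Pool.Agent.HAS53
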