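import Pool.Agent.HAS53.Main
import Pool.Agent.ZPC2.End
import Pool.Agent.RF66.Door

/-!
# Theorem Hasse and Corollary (a) (note 3199) for quaternionic structures
-/

set_option autoImplicit false
set_option linter.unusedSectionVars false

namespace Pool.Agent.HAS53

open Pool.Agent.ZPC2 Pool.Agent.LF53 QS

theorem sy_QS (S : QStruct) : Sy (toBD S) := fun _ _ => S.qs2 _ _

theorem xl_QS (S : QStruct) : XL (toBD S) := by
  rintro c x x' ⟨p, h1⟩ ⟨p', h2⟩
  obtain ⟨y, h3, h4⟩ := S.qs4 (Additive.toMul x) (Additive.toMul p) (Additive.toMul x')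
    (Additive.toMul p') (h1.trans h2.symm)
  exact ⟨Additive.ofMul y, h3.symm.trans h1, h4.symm.trans h2⟩

/-- **Theorem Hasse** for quaternionic structures (any `-1`) -/
theorem hasse_QS (S : QStruct) [Finite S.G] (φ : S.G → S.Q)
    (h : ∀ v w, ∃ t, S.q v t = φ v ∧ S.q w t = φ w ∧ S.q (v * w) t = φ (v * w)) :
    ∃ t, ∀ v, S.q v t = φ v := by
  have : Finite (Additive S.G) := (inferInstance : Finite S.G)
  obtain ⟨t, ht⟩ := hasse (sy_QS S) (xl_QS S) (fun v => φ (Additive.toMul v)) fun v w => by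
    obtain ⟨t, h1, h2, h3⟩ := h (Additive.toMul v) (Additive.toMul w)
    exact ⟨Additive.ofMul t, h1, h2, h3⟩
  exact ⟨Additive.toMul t, fun v => (ht (Additive.ofMul v)).symm⟩

/-- **Corollary (a)** for quaternionic structures -/
theorem hyper_QS (S : QStruct) [Finite S.G] (H : Subgroup S.G)
    (hH : ∀ v w, v ∉ H → w ∉ H → v * w ∈ H) (e : S.Q) (he : ∀ v, v ∉ H → ∃ t, S.q v t = e) :
    ∃ t, (∀ v, v ∉ H → S.q v t = e) ∧ ∀ v ∈ H, S.q v t = S.zero := by
  have hq1 : ∀ v, S.q v 1 = S.zero := by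
    intro v
    have h := (S.qs3 v 1 1).1 rfl
    rwa [mul_one] at h
  have hd : ∀ v w t, S.q v t = e → S.q (v * w) t = e → S.q w t = S.zero := by
    intro v w t h1 h2
    have h3 : S.q t (v * w) = S.q t v := by rw [S.qs2, h2, S.qs2, h1]
    have h4 := (S.qs3 t (v * w) v).1 h3
    have h5 : v * w * v = w := by rw [mul_comm v w, mul_assoc, S.exp_two, mul_one]
    rw [h5, S.qs2] at h4
    exact h4
  have hc : ∀ v w t, S.q v t = e → S.q w t = e → S.q (v * w) t = S.zero := by
    intro v w t h1 h2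
    have h3 : S.q t v = S.q t w := by rw [S.qs2, h1, S.qs2, h2]
    rw [S.qs2]
    exact (S.qs3 t v w).1 h3
  have hl : ∀ v w, v ∉ H → w ∉ H → ∃ t, S.q v t = e ∧ S.q w t = e := by
    intro v w hv hw
    obtain ⟨a, ha⟩ := he v hv
    obtain ⟨b, hb⟩ := he w hw
    obtain ⟨t, h1, h2⟩ := S.qs4 v a w b (ha.trans hb.symm)
    exact ⟨t, h1.symm.trans ha, h2.symm.trans hb⟩
  classical
  obtain ⟨t, ht⟩ := hasse_QS S (fun v => if v ∈ H then S.zero else e) (by
    intro v w
    by_cases hv : v ∈ H <;> by_cases hw : w ∈ H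
    · refine ⟨1, ?_, ?_, ?_⟩
      · rw [hq1]; simp [hv]
      · rw [hq1]; simp [hw]
      · rw [hq1]; simp [H.mul_mem hv hw]
    · have hvw : v * w ∉ H := fun h => hw ((H.mul_mem_cancel_left hv).1 h)
      obtain ⟨t, h1, h2⟩ := hl w (v * w) hw hvw
      refine ⟨t, ?_, ?_, ?_⟩
      · simp only [hv, if_true]
        rw [mul_comm v w] at h2
        exact hd w v t h1 h2
      · simp [hw, h1]
      · simp [hvw, h2]
    · have hvw : v * w ∉ H := fun h => hv ((H.mul_mem_cancel_right hw).1 h)
      obtain ⟨t, h1, h2⟩ := hl v (v * w) hv hvw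
      refine ⟨t, ?_, ?_, ?_⟩
      · simp [hv, h1]
      · simp only [hw, if_true]
        exact hd v w t h1 h2
      · simp [hvw, h2]
    · obtain ⟨t, h1, h2⟩ := hl v w hv hw
      refine ⟨t, ?_, ?_, ?_⟩
      · simp [hv, h1]
      · simp [hw, h2]
      · simp only [hH v w hv hw, if_true]
        exact hc v w t h1 h2)
  refine ⟨t, fun v hv => ?_, fun v hv => ?_⟩
  · rw [ht v]
    simp [hv]
  · rw [ht v]
    simp [hv]

/-- in a least counterexample the elements which do not represent `c ≠ 0` span the group: if they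
all lie in a proper subgroup, the structure is of elementary type -/
theorem elem_of_nonspan (S : QStruct) [Finite S.G] (hneg : S.neg = 1)
    (hsm : ∀ T : QStruct, Finite T.G → T.neg = 1 → Nat.card T.G < Nat.card S.G → ElemType T)
    {c : S.Q} (hc : c ≠ S.zero) (K : Subgroup S.G) (hK : K ≠ ⊤)
    (h : ∀ v, (∀ t, S.q v t ≠ c) → v ∈ K) : ElemType S := by
  let K' : Submodule (ZMod 2) (Additive S.G) :=
    { carrier := {v | Additive.toMul v ∈ K}
      add_mem' := fun {a b} ha hb => K.mul_mem ha hb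
      zero_mem' := K.one_mem
      smul_mem' := fun r a ha => by
        rcases smul_cases r a with e | e
        · rw [e]
          exact K.one_mem
        · rw [e]
          exact ha }
  obtain ⟨x, hx⟩ : ∃ x, x ∉ K := by
    by_contra hno
    push Not at hno
    exact hK (eq_top_iff.2 fun y _ => hno y)
  obtain ⟨Λ, h2, h1⟩ := Submodule.exists_le_ker_of_notMem (p := K') (v := Additive.ofMul x) hx
  have hone : ∀ a : ZMod 2, a ≠ 0 → a = 1 := by decide
  let H : Subgroup S.G :=
    { carrier := {v | Λ (Additive.ofMul v) = 0}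
      mul_mem' := fun {a b} ha hb => by
        show Λ (Additive.ofMul a + Additive.ofMul b) = 0
        rw [map_add, ha, hb, add_zero]
      one_mem' := map_zero Λ
      inv_mem' := fun {a} ha => by
        show Λ (-(Additive.ofMul a)) = 0
        rw [map_neg, ha, neg_zero] }
  have hH : ∀ v w, v ∉ H → w ∉ H → v * w ∈ H := by
    intro v w hv hw
    show Λ (Additive.ofMul v + Additive.ofMul w) = 0
    rw [map_add, hone _ hv, hone _ hw]
    rfl
  obtain ⟨t, ht1, ht2⟩ := hyper_QS S H hH c fun v hv => by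
    by_contra hno
    push Not at hno
    exact hv (h1 (h v hno : Additive.ofMul v ∈ K'))
  have hxH : x ∉ H := h2
  have ht : t ≠ 1 := by
    rintro rfl
    have h3 := ht1 x hxH
    have h4 := (S.qs3 x 1 1).1 rfl
    rw [mul_one] at h4
    exact hc (h3.symm.trans h4)
  refine RF66.elem_of_low hneg hsm ht hc fun v => ?_
  rw [S.qs2]
  by_cases hv : v ∈ H
  · exact Or.inl (ht2 v hv)
  · exact Or.inr (ht1 v hv)

end Pool.Agent.HAS53
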