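import Pool.Agent.HAS53.Comp

/-!
# Theorem Hasse relative to a subspace which is linked via itself
-/

set_option autoImplicit false
set_option linter.unusedSectionVars false
set_option linter.unusedVariables false

namespace Pool.Agent.HAS53

open Pool.Agent.ZPC2 Pool.Agent.LF53
open Pool.Agent.Helper58.PLine (QData)

variable {V Q : Type} [AddCommGroup V] [Module (ZMod 2) V] {S : QData V Q}

/-- the data of a subspace -/
def subBD (S : QData V Q) (R : Submodule (ZMod 2) V) : BD R R Q where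
  q v w := S.q v w
  z := S.z
  qr v w w1 := S.eq_iff
  ql v v1 w := S.eq_iff'

/-- **Theorem Hasse relative to a subspace `R` linked via itself**: if `q (r, s)` is a value of `r`
with slot in `R` for each `r ∈ R`, there is one slot in `R` for all `r ∈ R` -/
theorem hasse_sub [Finite V] (R : Submodule (ZMod 2) V)
    (hl : ∀ a ∈ R, ∀ b ∈ R, ∀ c ∈ R, ∀ d ∈ R, S.q a b = S.q c d →
      ∃ x ∈ R, S.q a b = S.q a x ∧ S.q c d = S.q c x)
    (s : V) (h : ∀ r ∈ R, ∃ t ∈ R, S.q r t = S.q r s) :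
    ∃ t ∈ R, ∀ r ∈ R, S.q r t = S.q r s := by
  have hs : Sy (subBD S R) := fun x y => S.symm x y
  have hX : XL (subBD S R) := by
    rintro c x x' ⟨p, h1⟩ ⟨p', h2⟩
    obtain ⟨y, hy, h3, h4⟩ := hl x x.2 p p.2 x' x'.2 p' p'.2 (h1.trans h2.symm)
    exact ⟨⟨y, hy⟩, h3.symm.trans h1, h4.symm.trans h2⟩
  obtain ⟨t, ht⟩ := hasse hs hX (fun r : R => S.q r s) (by
    rintro ⟨a, ha⟩ ⟨b, hb⟩
    obtain ⟨u1, hu1, h1⟩ := h a ha
    obtain ⟨u2, hu2, h2⟩ := h b hb
    obtain ⟨u3, hu3, h3⟩ := h (a + b) (R.add_mem ha hb)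
    have m1 : S.q a (u1 + s) = S.z := S.eq_iff.1 h1
    have m2 : S.q b (u2 + s) = S.z := S.eq_iff.1 h2
    have m3 : S.q (a + b) (u3 + s) = S.z := S.eq_iff.1 h3
    have h00 : S.q 0 (u1 + u2 + u3 + s) = S.z := by
      have h : S.q ((0 : V) + 0) (u1 + u2 + u3 + s) = S.z := S.eq_iff'.1 rfl
      rwa [add_zero] at h
    have m5 := ETC.four_term (S := S) (p := 0) (w := u1 + u2 + u3 + s) (a := a) (b := b)
      (u := u1 + u3) (v := u2 + u3) h00
      (by rw [zero_add, show u1 + u2 + u3 + s + (u2 + u3) = u1 + s + (u2 + u2) + (u3 + u3) by abel,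
            ZModModule.add_self, ZModModule.add_self, add_zero, add_zero, m1])
      (by rw [zero_add, show u1 + u2 + u3 + s + (u1 + u3) = u2 + s + (u1 + u1) + (u3 + u3) by abel,
            ZModModule.add_self, ZModModule.add_self, add_zero, add_zero, m2])
      (by rw [zero_add, show u1 + u2 + u3 + s + (u1 + u3) + (u2 + u3) =
            u3 + s + (u1 + u1) + (u2 + u2) + (u3 + u3) by abel,
            ZModModule.add_self, ZModModule.add_self, ZModModule.add_self, add_zero, add_zero,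
            add_zero, m3])
    obtain ⟨y, hy, n1, n2⟩ := hl a ha _ (R.add_mem hu1 hu3) b hb _ (R.add_mem hu2 hu3) m5
    have k1 : S.q a (u3 + y) = S.q a s := by
      rw [← h1, S.eq_iff]
      have := S.eq_iff.1 n1
      rwa [show u1 + u3 + y = u3 + y + u1 by abel] at this
    have k2 : S.q b (u3 + y) = S.q b s := by
      rw [← h2, S.eq_iff]
      have := S.eq_iff.1 n2
      rwa [show u2 + u3 + y = u3 + y + u2 by abel] at this
    refine ⟨⟨u3 + y, R.add_mem hu3 hy⟩, k1, k2, ?_⟩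
    show S.q (a + b) (u3 + y) = S.q (a + b) s
    rw [S.eq_iff]
    have e1 : u3 + y + s ∈ S.ann a := S.eq_iff.1 k1
    have e2 : u3 + y + s ∈ S.ann b := S.eq_iff.1 k2
    have e3 : S.q a (u3 + y + s) = S.q b (u3 + y + s) := by
      rw [show S.q a (u3 + y + s) = S.z from e1, show S.q b (u3 + y + s) = S.z from e2]
    exact S.eq_iff'.1 e3)
  exact ⟨t, t.2, fun r hr => (ht ⟨r, hr⟩).symm⟩

end Pool.Agent.HAS53
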